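import Pool.Agent.MP_bd94e8_al.H89.Spec

/-!
Positive real weights, from the walk lemma and the theorem of the alternative.
-/

set_option autoImplicit false

namespace Pool.Agent.MP_bd94e8_al.H89

open Finset

namespace PosA

/-- The theorem of the alternative. -/
theorem gordan {W A : Type} [AddCommGroup W] [Module ℝ W] [Fintype A] (d : A → W →ₗ[ℝ] ℝ)
    (C : A → Prop) (g : A → A → Prop)
    (h : ¬ ∃ w, (∀ a, C a → 0 < d a w) ∧ ∀ a b, g a b → d a w = d b w) :
    ∃ f m : A → ℝ, (∀ w, ∑ c, f c * d c w = 0) ∧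
      (∀ φ : A → ℝ, (∀ a b, g a b → φ a = φ b) → ∑ c, f c * φ c = ∑ c, m c * φ c) ∧
      ∀ φ : A → ℝ, (∀ a, C a → 0 < φ a) → 0 < ∑ c, m c * φ c := by
  classical
  let Z : Submodule ℝ W := ⨅ x : {x : A × A // g x.1 x.2}, LinearMap.ker (d x.1.1 - d x.1.2)
  let S : Submodule ℝ (A → ℝ) := Z.map (LinearMap.pi d)
  let O : Set (A → ℝ) := {φ | ∀ a, C a → 0 < φ a}
  have hO : IsOpen O := by
    have : O = ⋂ a, {φ : A → ℝ | C a → 0 < φ a} := by ext φ; simp [O]
    rw [this]
    refine isOpen_iInter_of_finite fun a => ?_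
    by_cases ha : C a
    · simpa [ha] using isOpen_lt continuous_const (continuous_apply a)
    · simp [ha]
  have hc : Convex ℝ O := by
    intro x hx y hy s t hs ht hst a ha
    have h1 := hx a ha
    have h2 := hy a ha
    simp only [Pi.add_apply, Pi.smul_apply, smul_eq_mul]
    rcases hs.eq_or_lt with rfl | hs'
    · rw [zero_add] at hst; simpa [hst] using h2
    · positivity
  have hd : Disjoint O (S : Set (A → ℝ)) := by
    rw [Set.disjoint_left]
    rintro φ hφ ⟨w, hw, rfl⟩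
    refine h ⟨w, hφ, fun a b hab => ?_⟩
    have := (Submodule.mem_iInf _).1 hw ⟨(a, b), hab⟩
    simpa [sub_eq_zero] using this
  obtain ⟨l, u, h1, h2⟩ := geometric_hahn_banach_open hc hO S.convex hd
  have hu : u ≤ 0 := by simpa using h2 0 S.zero_mem
  have h0 : ∀ ψ ∈ S, l ψ = 0 := by
    intro ψ hψ
    by_contra hne
    have := h2 _ (S.smul_mem ((u - 1) / l ψ) hψ)
    rw [map_smul, smul_eq_mul, div_mul_cancel₀ _ hne] at this
    linarith
  let m : A → ℝ := fun c => -l (Pi.single c 1)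
  have hm : ∀ φ : A → ℝ, ∑ c, m c * φ c = -l φ := by
    intro φ
    conv_rhs => rw [pi_eq_sum_univ' φ]
    rw [map_sum, ← sum_neg_distrib]
    refine sum_congr rfl fun c _ => ?_
    rw [map_smul, smul_eq_mul]
    simp only [m]
    ring
  have hK : (∑ c, m c • d c) ∈ Submodule.span ℝ
      (Set.range fun x : {x : A × A // g x.1 x.2} => d x.1.1 - d x.1.2) := by
    refine mem_span_of_iInf_ker_le_ker fun w hw => ?_
    have := h0 _ ⟨w, hw, rfl⟩
    rw [LinearMap.mem_ker, LinearMap.sum_apply]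
    simp only [LinearMap.smul_apply, smul_eq_mul]
    rw [hm fun c => d c w, neg_eq_zero]
    exact this
  have hind : ∀ K ∈ Submodule.span ℝ
      (Set.range fun x : {x : A × A // g x.1 x.2} => d x.1.1 - d x.1.2),
      ∃ n : A → ℝ, (∀ w, ∑ c, n c * d c w = K w) ∧
        ∀ φ : A → ℝ, (∀ a b, g a b → φ a = φ b) → ∑ c, n c * φ c = 0 := by
    intro K hK
    induction hK using Submodule.span_induction with
    | mem K hK =>
      obtain ⟨⟨⟨a, b⟩, hab⟩, rfl⟩ := hK
      refine ⟨Pi.single a 1 - Pi.single b 1, fun w => ?_, fun φ hφ => ?_⟩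
      · simp [sub_mul, Pi.single_apply]
      · simp [sub_mul, Pi.single_apply, hφ a b hab]
    | zero => exact ⟨0, by simp, by simp⟩
    | add x y _ _ hx hy =>
      obtain ⟨n, hn, hn'⟩ := hx
      obtain ⟨k, hk, hk'⟩ := hy
      exact ⟨n + k, fun w => by simp [add_mul, sum_add_distrib, hn, hk],
        fun φ hφ => by simp [add_mul, sum_add_distrib, hn' φ hφ, hk' φ hφ]⟩
    | smul s x _ hx =>
      obtain ⟨n, hn, hn'⟩ := hx
      exact ⟨s • n, fun w => by simp [mul_assoc, ← mul_sum, hn],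
        fun φ hφ => by simp [mul_assoc, ← mul_sum, hn' φ hφ]⟩
  obtain ⟨n, hn, hn'⟩ := hind _ hK
  refine ⟨m - n, m, fun w => ?_, fun φ hφ => ?_, fun φ hφ => ?_⟩
  · simp [sub_mul, hn, LinearMap.sum_apply]
  · simp [sub_mul, hn' φ hφ]
  · rw [hm]
    linarith [h1 φ hφ]

variable {Pt ι : Type} {vt : Pt → ι} {arr : Pt → Pt → Prop} {tie : Pt × Pt → Pt × Pt → Prop}

theorem tie_ne (h : Comb vt arr tie) {a b : Pt × Pt} (hab : tie a b) : a ≠ b :=
  fun e => (h.tie_vt a b hab).2.2.1 (by rw [e])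

theorem le3 (h : Comb vt arr tie) {a b c d : Pt × Pt} (hb : tie a b) (hc : tie a c)
    (hd : tie a d) : b = c ∨ b = d ∨ c = d := by
  by_contra hne
  push Not at hne
  obtain ⟨h1, h2, h3⟩ := hne
  have e1 := h.tie_vt _ _ hb
  have e2 := h.tie_vt _ _ hc
  have e3 := h.tie_vt _ _ hd
  have e4 := h.tie_vt _ _ (h.tie_trans _ _ _ (h.symm _ _ hb) hc h1)
  have e5 := h.tie_vt _ _ (h.tie_trans _ _ _ (h.symm _ _ hb) hd h2)
  have e6 := h.tie_vt _ _ (h.tie_trans _ _ _ (h.symm _ _ hc) hd h3)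
  rcases h.three (vt a.1) a.1 b.1 c.1 d.1 rfl e1.1.symm e2.1.symm e3.1.symm with
    e | e | e | e | e | e
  exacts [e1.2.2.1 e, e2.2.2.1 e, e3.2.2.1 e, e4.2.2.1 e, e5.2.2.1 e, e6.2.2.1 e]

/-- The chosen one of the two arrows of a class that are not covers. -/
def Ch (arr : Pt → Pt → Prop) (tie : Pt × Pt → Pt × Pt → Prop) (ix : Pt × Pt → ℕ) (v : Pt × Pt) :
    Prop := ¬ Cov arr v ∧ ∃ u v', Cov arr u ∧ ¬ Cov arr v' ∧ tie v u ∧ tie v v' ∧ ix v < ix v'

/-- Generating ties. -/
def Gn (arr : Pt → Pt → Prop) (tie : Pt × Pt → Pt × Pt → Prop) (ix : Pt × Pt → ℕ) (a b : Pt × Pt) :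
    Prop := tie a b ∧ Cov arr a ∧ (Cov arr b ∨ Ch arr tie ix b)

/-- The number of points between the ends. -/
noncomputable def len (arr : Pt → Pt → Prop) (a : Pt × Pt) : ℕ :=
  {z | arr a.1 z ∧ arr z a.2}.ncard

variable [Fintype Pt]

theorem len_lt (h : Comb vt arr tie) {p z q : Pt} (h1 : arr p z) (h2 : arr z q) :
    len arr (p, z) < len arr (p, q) ∧ len arr (z, q) < len arr (p, q) := by
  constructor
  · refine Set.ncard_lt_ncard ⟨fun y hy => ⟨hy.1, h.trans _ _ _ hy.2 h2⟩, fun hs => ?_⟩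
    exact h.irr z (hs (⟨h1, h2⟩ : z ∈ {z | arr (p, q).1 z ∧ arr z (p, q).2})).2
  · refine Set.ncard_lt_ncard ⟨fun y hy => ⟨h.trans _ _ _ h1 hy.1, hy.2⟩, fun hs => ?_⟩
    exact h.irr z (hs (⟨h1, h2⟩ : z ∈ {z | arr (p, q).1 z ∧ arr z (p, q).2})).1

theorem arr_lt (h : Comb vt arr tie) {w : Pt → ℝ} (hw : ∀ a, Cov arr a → 0 < w a.2 - w a.1)
    (n : ℕ) : ∀ p q, len arr (p, q) < n → arr p q → w p < w q := by
  induction n with
  | zero => intro p q hn; omega
  | succ n ih =>
    intro p q hn hpq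
    by_cases hc : ∃ z, arr p z ∧ arr z q
    · obtain ⟨z, h1, h2⟩ := hc
      have := len_lt h h1 h2
      exact (ih p z (by omega) h1).trans (ih z q (by omega) h2)
    · exact sub_pos.1 (hw (p, q) ⟨hpq, hc⟩)

theorem tie_eq (h : Comb vt arr tie) {ix : Pt × Pt → ℕ} (hix : Function.Injective ix)
    {w : Pt → ℝ} (hw : ∀ a b, Gn arr tie ix a b → w a.2 - w a.1 = w b.2 - w b.1) (n : ℕ) :
    ∀ a b, tie a b → (∀ c, c = a ∨ tie a c → len arr c < n) →
      w a.2 - w a.1 = w b.2 - w b.1 := by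
  induction n with
  | zero => intro a b _ hn; have := hn a (Or.inl rfl); omega
  | succ n ih =>
    have key : ∀ c e, tie c e → ¬ Cov arr c → (∀ c', c' = c ∨ tie c c' → len arr c' < n + 1) →
        ∃ c', ¬ Cov arr c' ∧ tie c c' ∧ w c.2 - w c.1 = w c'.2 - w c'.1 := by
      rintro ⟨p, q⟩ e hce hc hn
      obtain ⟨z, h1, h2⟩ : ∃ z, arr p z ∧ arr z q := by
        by_contra hz
        exact hc ⟨h.tie_arr _ _ hce, hz⟩
      obtain ⟨p', z', q', t1, t2, t3⟩ := h.fac p q z e hce h1 h2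
      have h1' : arr p' z' := h.tie_arr _ _ (h.symm _ _ t1)
      have h2' : arr z' q' := h.tie_arr _ _ (h.symm _ _ t2)
      have l1 := len_lt h h1 h2
      have l2 := len_lt h h1' h2'
      have l3 := hn _ (Or.inl rfl)
      have l4 := hn _ (Or.inr t3)
      have e1 := ih _ _ t1 (by
        rintro c (rfl | hc')
        · omega
        · by_cases e : c = (p', z')
          · rw [e]; omega
          · exact (h.pl p z q c _ _ hc' t1 e h2 t3).elim)
      have e2 := ih _ _ t2 (by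
        rintro c (rfl | hc')
        · omega
        · by_cases e : c = (z', q')
          · rw [e]; omega
          · exact (h.pl' z q p c _ _ hc' t2 e h1 t3).elim)
      refine ⟨(p', q'), fun hc' => hc'.2 ⟨z', h1', h2'⟩, t3, ?_⟩
      dsimp only at e1 e2 ⊢
      linarith
    have cls : ∀ a b, tie a b → (∀ c, c = a ∨ tie a c → len arr c < n + 1) →
        ∀ c, c = b ∨ tie b c → len arr c < n + 1 := by
      rintro a b hab hn c (rfl | hc)
      · exact hn _ (Or.inr hab)
      · by_cases e : a = c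
        · exact hn _ (Or.inl e.symm)
        · exact hn _ (Or.inr (h.tie_trans _ _ _ hab hc e))
    have nc : ∀ u v, tie u v → Cov arr u → ¬ Cov arr v →
        (∀ c, c = v ∨ tie v c → len arr c < n + 1) → w u.2 - w u.1 = w v.2 - w v.1 := by
      intro u v huv hu hv hn
      obtain ⟨v', hv', t, e⟩ := key v u (h.symm _ _ huv) hv hn
      have huv' : tie u v' := h.tie_trans _ _ _ huv t fun e => hv' (e ▸ hu)
      rcases lt_trichotomy (ix v) (ix v') with hl | hl | hl
      · exact hw u v ⟨huv, hu, Or.inr ⟨hv, u, v', hu, hv', h.symm _ _ huv, t, hl⟩⟩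
      · exact (tie_ne h t (hix hl)).elim
      · rw [e]
        exact hw u v' ⟨huv', hu, Or.inr ⟨hv', u, v, hu, hv, h.symm _ _ huv', h.symm _ _ t, hl⟩⟩
    intro a b hab hn
    have hn' := cls a b hab hn
    have hba := h.symm _ _ hab
    by_cases ha : Cov arr a <;> by_cases hb : Cov arr b
    · exact hw a b ⟨hab, ha, Or.inl hb⟩
    · exact nc a b hab ha hb hn'
    · exact (nc b a hba hb ha hn).symm
    · obtain ⟨a', -, ta, ea⟩ := key a b hab ha hn
      obtain ⟨b', -, tb, eb⟩ := key b a hba hb hn'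
      by_cases e : b = a'
      · rw [e]; exact ea
      · rcases le3 h hba (h.tie_trans _ _ _ hba ta e) tb with e' | e' | e'
        · exact (tie_ne h ta e').elim
        · rw [eb, e']
        · rw [ea, eb, e']

end PosA

open PosA in
theorem pos (hW : SPosW) : SPos := by
  classical
  intro Pt ι _ vt arr tie L h hch hNP hTT
  let ix : Pt × Pt → ℕ := fun a => Fintype.equivFin (Pt × Pt) a
  have hix : Function.Injective ix := fun a b e =>
    (Fintype.equivFin (Pt × Pt)).injective (Fin.ext e)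
  let d : Pt × Pt → (Pt → ℝ) →ₗ[ℝ] ℝ := fun a =>
    LinearMap.proj (R := ℝ) (φ := fun _ : Pt => ℝ) a.2 -
      LinearMap.proj (R := ℝ) (φ := fun _ : Pt => ℝ) a.1
  have hd : ∀ a w, d a w = w a.2 - w a.1 := fun a w => rfl
  by_cases hex : ∃ w, (∀ a, Cov arr a → 0 < d a w) ∧ ∀ a b, Gn arr tie ix a b → d a w = d b w
  · obtain ⟨w, h1, h2⟩ := hex
    refine ⟨w, fun p q => arr_lt h h1 _ p q (Nat.lt_succ_self _), fun a b hab =>
      tie_eq h hix h2 (Fintype.card Pt + 1) a b hab fun c _ => Nat.lt_succ_of_le ?_⟩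
    rw [len, ← Nat.card_eq_fintype_card]
    exact Set.ncard_le_card _
  exfalso
  obtain ⟨f, m, h1, h2, h3⟩ := gordan d _ _ hex
  simp only [hd] at h1
  have h4 : ∀ φ : Pt × Pt → ℝ, (∀ a, Cov arr a → 0 ≤ φ a) → 0 ≤ ∑ c, m c * φ c := by
    intro φ hφ
    by_contra hneg
    push Not at hneg
    have hp := h3 (fun _ => 1) fun _ _ => one_pos
    have := h3 (fun c => φ c + -(∑ c, m c * φ c) / (∑ c, m c * 1)) fun a ha =>
      add_pos_of_nonneg_of_pos (hφ a ha) (div_pos (neg_pos.2 hneg) hp)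
    have e : ∑ c, m c * (φ c + -(∑ c, m c * φ c) / (∑ c, m c * 1)) =
        ∑ c, m c * φ c + (∑ c, m c * 1) * (-(∑ c, m c * φ c) / (∑ c, m c * 1)) := by
      rw [sum_mul, ← sum_add_distrib]
      exact sum_congr rfl fun c _ => by ring
    rw [e, mul_div_cancel₀ _ hp.ne'] at this
    linarith
  have hs : ∀ c, ¬ Cov arr c → ¬ Ch arr tie ix c → f c = 0 := by
    intro c hc hc'
    have hz : ∀ a, Cov arr a → (Pi.single c 1 : Pt × Pt → ℝ) a = 0 := fun a ha =>
      Pi.single_eq_of_ne (fun e : a = c => hc (e ▸ ha)) _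
    have e1 := h2 (Pi.single c 1) fun a b hab => by
      rw [hz a hab.2.1, Pi.single_eq_of_ne]
      rintro rfl
      exact hab.2.2.elim hc hc'
    have e2 := h4 (Pi.single c 1) fun a ha => (hz a ha).ge
    have e3 := h4 (-Pi.single c 1) fun a ha => by rw [Pi.neg_apply, hz a ha, neg_zero]
    simp [Pi.single_apply] at e1 e2 e3
    linarith
  have hs' : ∀ c, f c ≠ 0 → Cov arr c ∨ Ch arr tie ix c := fun c hc => by
    by_contra hn
    push Not at hn
    exact hc (hs c hn.1 hn.2)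
  have ha : ∀ c, f c ≠ 0 → arr c.1 c.2 := fun c hc => by
    rcases hs' c hc with e | ⟨-, u, -, -, -, e, -⟩
    exacts [e.1, h.tie_arr _ _ e]
  refine hW Pt ι vt arr tie L h hch hNP hTT {c | 0 < f c} {c | f c < 0} ?_ ?_ ?_ ?_ ?_ ?_
  · rintro c (hc | hc)
    exacts [ha c (ne_of_gt hc), ha c (ne_of_lt hc)]
  · exact Set.disjoint_left.2 fun c h1 h2 => lt_asymm (show 0 < f c from h1) h2
  · by_contra hne
    have hf : ∀ c, 0 ≤ f c := fun c => not_lt.1 fun hc => hne ⟨c, hc⟩
    let w : Pt → ℝ := fun p => ({z | arr z p}.ncard : ℝ)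
    have hw : ∀ p q, arr p q → 1 ≤ w q - w p := by
      intro p q hpq
      have : {z | arr z p}.ncard < {z | arr z q}.ncard :=
        Set.ncard_lt_ncard ⟨fun y hy => h.trans _ _ _ hy hpq, fun hs => h.irr p (hs hpq)⟩
      have h5 : (({z | arr z p}.ncard + 1 : ℕ) : ℝ) ≤ {z | arr z q}.ncard := Nat.cast_le.2 this
      push_cast at h5
      simp only [w]
      linarith
    have e1 := h3 (fun _ => 1) fun _ _ => one_pos
    rw [← h2 (fun _ => 1) fun _ _ _ => rfl] at e1
    refine absurd (h1 w) (ne_of_gt (e1.trans_le (sum_le_sum fun c _ => ?_)))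
    by_cases hc : f c = 0
    · simp [hc]
    · exact mul_le_mul_of_nonneg_left (hw _ _ (ha c hc)) (hf c)
  · intro b hb
    by_contra hne
    push Not at hne
    let φ : Pt × Pt → ℝ := fun c => if c = b ∨ tie c b then 1 else 0
    have hiff : ∀ x y, tie x y → (x = b ∨ tie x b) → (y = b ∨ tie y b) := by
      rintro x y hxy (rfl | hx)
      · exact Or.inr (h.symm _ _ hxy)
      · by_cases e : y = b
        · exact Or.inl e
        · exact Or.inr (h.tie_trans _ _ _ (h.symm _ _ hxy) hx e)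
    have e1 := h2 φ fun x y hxy => if_congr ⟨hiff x y hxy.1, hiff y x (h.symm _ _ hxy.1)⟩ rfl rfl
    have e2 := h4 φ fun a _ => by simp only [φ]; split_ifs <;> norm_num
    rw [← e1] at e2
    refine absurd e2 (not_le.2 ?_)
    have e3 : ∑ c, f c * φ c < ∑ _c : Pt × Pt, (0 : ℝ) := by
      refine sum_lt_sum (fun c _ => ?_) ⟨b, mem_univ _, by simpa [φ] using hb⟩
      simp only [φ]
      split_ifs with hc
      · rw [mul_one]
        rcases hc with rfl | hc
        · exact le_of_lt hb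
        · exact not_lt.1 fun hp => hne c hp hc
      · rw [mul_zero]
    simpa using e3
  · intro U hU a hf h5 h6
    by_contra hne
    push Not at hne
    have e1 := h1 fun p => if p ∈ U then 1 else 0
    have e3 : ∑ _c : Pt × Pt, (0 : ℝ) < ∑ c : Pt × Pt,
        f c * ((if c.2 ∈ U then 1 else 0) - if c.1 ∈ U then 1 else 0) := by
      refine sum_lt_sum (fun c _ => ?_) ⟨a, mem_univ _, by simpa [h5, h6] using hf⟩
      by_cases hc : f c = 0
      · simp [hc]
      · by_cases c1 : c.1 ∈ U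
        · simp [c1, hU _ _ c1 (ha c hc)]
        · by_cases c2 : c.2 ∈ U
          · simpa [c1, c2] using not_lt.1 fun hp => hne c hp c1 c2
          · simp [c1, c2]
    rw [e1] at e3
    simp at e3
  · intro c hc hcov
    have hc0 : f c ≠ 0 := hc.elim (fun e => ne_of_gt e) fun e => ne_of_lt e
    obtain ⟨-, u, v, hu, hv, t1, t2, hl⟩ := (hs' c hc0).resolve_left hcov
    have hv0 : f v = 0 := by
      refine hs v hv ?_
      rintro ⟨-, u', v', -, hv', -, t3, hl'⟩
      have t4 : tie v u := h.tie_trans _ _ _ (h.symm _ _ t2) t1 fun e => hv (e ▸ hu)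
      rcases le3 h (h.symm _ _ t2) t4 t3 with e | e | e
      · exact hcov (e ▸ hu)
      · rw [← e] at hl'; omega
      · exact hv' (e ▸ hu)
    exact ⟨u, v, hu, hv, t1, t2, fun e => (ne_of_gt e) hv0, fun e => (ne_of_lt e) hv0⟩

end Pool.Agent.MP_bd94e8_al.H89
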